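import Pool.Agent.R766.GL.Full
import Pool.Agent.R766.Proc

/-!
# The greedy random walk on the ladder is recurrent

The proof uses a Lyapunov function. The columns on each side of the starting vertex are divided
into blocks of two consecutive columns. For a block, the expected total horizontal drift of the
greedy steps made in the block, after the first visit to the block, is less than `2`, and this holds
even if an adversary chooses how the walk comes back to the block (`R766.GL.Table`, units `1/15`,
the bound is `29 / 15`). So the distance plus the sum over the touched blocks of the remaining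
drifts, discounted whenever a new block is touched, is a supermartingale that tends to infinity
along the first hitting times of far columns.
-/

set_option autoImplicit false

open MeasureTheory Filter Topology
open scoped ENNReal

namespace Pool.Agent.Results.MP_1d885b_pr.LadderRecurrent

section Defs

variable {V : Type*}

/-- The edge `e` has been traversed by the path `x` in one of the steps `x s → x (s + 1)` with
`s < t`. -/
def Visited (x : ℕ → V) (t : ℕ) (e : Sym2 V) : Prop := ∃ s < t, s(x s, x (s + 1)) = e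

/-- The vertices to which the greedy random walk with past `x 0, ..., x t` may move: the
neighbours across a not yet visited edge if there is such an edge, and all neighbours otherwise. -/
def options (G : SimpleGraph V) (x : ℕ → V) (t : ℕ) : Set V :=
  {y | G.Adj (x t) y ∧
    (¬ Visited x t s(x t, y) ∨ ∀ z, G.Adj (x t) z → Visited x t s(x t, z))}

open Classical in
/-- The conditional probability, given the past `x 0, ..., x t`, that the greedy random walk is at
`y` at time `t + 1`. -/
noncomputable def stepProb (G : SimpleGraph V) (x : ℕ → V) (t : ℕ) (y : V) : ℝ≥0∞ :=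
  if y ∈ options G x t then ((options G x t).ncard : ℝ≥0∞)⁻¹ else 0

/-- `X` is the greedy random walk on `G` started at `v`. -/
structure IsGRW (G : SimpleGraph V) (v : V) {Ω : Type*} {_ : MeasurableSpace Ω} (P : Measure Ω)
    (X : ℕ → Ω → V) : Prop where
  prob : IsProbabilityMeasure P
  meas : ∀ n y, MeasurableSet {ω | X n ω = y}
  start : P {ω | X 0 ω = v} = 1
  step : ∀ (n : ℕ) (x : ℕ → V) (y : V), P {ω | (∀ i ≤ n, X i ω = x i) ∧ X (n + 1) ω = y} =
    P {ω | ∀ i ≤ n, X i ω = x i} * stepProb G x n y

end Defs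

/-- The ladder. -/
def ladder : SimpleGraph (ℤ × ZMod 2) where
  Adj a b := (a.2 = b.2 ∧ (b.1 = a.1 + 1 ∨ a.1 = b.1 + 1)) ∨ (a.1 = b.1 ∧ a.2 ≠ b.2)
  symm := ⟨fun a b h => by
    rcases h with ⟨h1, h2⟩ | ⟨h1, h2⟩
    · exact Or.inl ⟨h1.symm, h2.symm⟩
    · exact Or.inr ⟨h1.symm, h2.symm⟩⟩
  loopless := ⟨fun a h => by
    rcases h with ⟨_, h2⟩ | ⟨_, h2⟩
    · omega
    · exact h2 rfl⟩

open R766.GL

/-! ### The ladder and the directions -/

theorem ne_add_one (i : ZMod 2) : i ≠ i + 1 := by
  revert i; decide

theorem adj_iff (a b : V) : ladder.Adj a b ↔ ∃ d, b = move a d := by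
  obtain ⟨n, i⟩ := a
  obtain ⟨m, j⟩ := b
  constructor
  · rintro (⟨h1, h2 | h2⟩ | ⟨h1, h2⟩)
    · simp only at h1 h2
      exact ⟨1, by simp [move, h1, h2]⟩
    · simp only at h1 h2
      exact ⟨0, by simp [move, h1, h2]⟩
    · simp only at h1 h2
      exact ⟨2, by simp [move, h1, row_ne i j (Ne.symm h2)]⟩
  · rintro ⟨d, hd⟩
    rcases key3 d with rfl | rfl | rfl
    · simp only [move, Prod.mk.injEq] at hd
      left
      exact ⟨hd.2.symm, Or.inr (by simp only; omega)⟩
    · simp only [move, Prod.mk.injEq] at hd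
      left
      exact ⟨hd.2.symm, Or.inl (by simp only; omega)⟩
    · simp only [move, Prod.mk.injEq] at hd
      right
      refine ⟨hd.1.symm, ?_⟩
      simp only [hd.2]
      exact ne_add_one i

theorem move_inj (a : V) {d e : Fin 3} (h : move a d = move a e) : d = e := by
  obtain ⟨n, i⟩ := a
  rcases key3 d with rfl | rfl | rfl <;> rcases key3 e with rfl | rfl | rfl <;>
    simp [move, Prod.ext_iff] at h ⊢ <;> omega

/-- The edge of the ladder with the given name. -/
def toSym : Ed → Sym2 V
  | .hor n i => s((n, i), (n + 1, i))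
  | .rung n => s((n, 0), (n, 1))

theorem toSym_edge (a : V) (d : Fin 3) : toSym (edge a d) = s(a, move a d) := by
  obtain ⟨n, i⟩ := a
  rcases key3 d with rfl | rfl | rfl
  · simp only [edge, toSym, move, sub_add_cancel]
    exact Sym2.eq_swap
  · simp only [edge, toSym, move]
  · rcases row i with rfl | rfl
    · simp only [edge, toSym, move, zero_add_one]
    · simp only [edge, toSym, move, one_add_one]
      exact Sym2.eq_swap

theorem toSym_inj : Function.Injective toSym := by
  intro e e' h
  cases e with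
  | hor n i =>
    cases e' with
    | hor m j =>
      simp only [toSym, Sym2.eq_iff, Prod.mk.injEq] at h
      rcases h with ⟨⟨h1, h2⟩, _⟩ | ⟨⟨h1, _⟩, h3, _⟩
      · rw [h1, h2]
      · omega
    | rung m =>
      simp only [toSym, Sym2.eq_iff, Prod.mk.injEq] at h
      rcases h with ⟨⟨h1, _⟩, h3, _⟩ | ⟨⟨h1, _⟩, h3, _⟩ <;> omega
  | rung n =>
    cases e' with
    | hor m j =>
      simp only [toSym, Sym2.eq_iff, Prod.mk.injEq] at h
      rcases h with ⟨⟨h1, _⟩, h3, _⟩ | ⟨⟨h1, _⟩, h3, _⟩ <;> omega
    | rung m =>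
      simp only [toSym, Sym2.eq_iff, Prod.mk.injEq] at h
      rcases h with ⟨⟨h1, _⟩, _⟩ | ⟨⟨h1, _⟩, _⟩ <;> rw [h1]

/-- Translation of vertices. -/
def rel (c : ℤ) (a : V) : V := (a.1 - c, a.2)

/-- Translation of edges. -/
def relE (c : ℤ) : Ed → Ed
  | .hor n i => .hor (n - c) i
  | .rung n => .rung (n - c)

theorem relE_inj (c : ℤ) : Function.Injective (relE c) := by
  intro e e' h
  cases e <;> cases e' <;> simp [relE] at h ⊢ <;> exact h

theorem move_rel (c : ℤ) (a : V) (d : Fin 3) : move (rel c a) d = rel c (move a d) := by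
  rcases key3 d with rfl | rfl | rfl <;> simp [move, rel] <;> ring

theorem edge_rel (c : ℤ) (a : V) (d : Fin 3) : edge (rel c a) d = relE c (edge a d) := by
  rcases key3 d with rfl | rfl | rfl <;> simp [edge, rel, relE] <;> ring

theorem edge_eq_iff (c : ℤ) (a b : V) (d e : Fin 3) :
    edge (rel c a) d = edge (rel c b) e ↔ s(a, move a d) = s(b, move b e) := by
  rw [edge_rel, edge_rel, (relE_inj c).eq_iff, ← toSym_edge, ← toSym_edge, toSym_inj.eq_iff]

/-! ### The state along a path -/

/-- The direction of a step. -/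
def dirTo (a b : V) : Fin 3 := if b = move a 0 then 0 else if b = move a 1 then 1 else 2

theorem dirTo_move (a : V) (d : Fin 3) : dirTo a (move a d) = d := by
  unfold dirTo
  by_cases h0 : move a d = move a 0
  · rw [if_pos h0]; exact (move_inj a h0).symm
  · rw [if_neg h0]
    by_cases h1 : move a d = move a 1
    · rw [if_pos h1]; exact (move_inj a h1).symm
    · rw [if_neg h1]
      rcases key3 d with rfl | rfl | rfl
      · exact absurd rfl h0
      · exact absurd rfl h1
      · rfl

/-- The state of the path `x` at time `t`. -/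
def st (v : V) (x : ℕ → V) : ℕ → St
  | 0 => ⟨∅, rel v.1 (x 0), 0, 0⟩
  | t + 1 => upd (st v x t) (dirTo (x t) (x (t + 1)))

/-- The path starts at `v` and follows edges of the ladder. -/
def Valid (v : V) (x : ℕ → V) (t : ℕ) : Prop :=
  x 0 = v ∧ ∀ s < t, ladder.Adj (x s) (x (s + 1))

theorem st_congr (v : V) (x x' : ℕ → V) (t : ℕ) (h : ∀ i ≤ t, x i = x' i) :
    st v x t = st v x' t := by
  induction t with
  | zero => simp [st, h 0 le_rfl]
  | succ t ih =>
    simp only [st]
    rw [ih fun i hi => h i (by omega), h t (by omega), h (t + 1) le_rfl]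

theorem valid_succ {v : V} {x : ℕ → V} {t : ℕ} (h : Valid v x (t + 1)) : Valid v x t :=
  ⟨h.1, fun s hs => h.2 s (by omega)⟩

theorem st_x {v : V} {x : ℕ → V} {t : ℕ} (h : Valid v x t) : (st v x t).x = rel v.1 (x t) := by
  induction t with
  | zero => rfl
  | succ t ih =>
    have h1 := ih (valid_succ h)
    obtain ⟨d, hd⟩ := (adj_iff _ _).1 (h.2 t (by omega))
    simp only [st, upd]
    rw [h1, hd, dirTo_move, move_rel]

theorem visited_succ {W : Type*} (x : ℕ → W) (t : ℕ) (e : Sym2 W) :
    Visited x (t + 1) e ↔ s(x t, x (t + 1)) = e ∨ Visited x t e := by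
  unfold Visited
  constructor
  · rintro ⟨s, hs, h⟩
    rcases Nat.lt_succ_iff_lt_or_eq.1 hs with h1 | h1
    · exact Or.inr ⟨s, h1, h⟩
    · subst h1; exact Or.inl h
  · rintro (h | ⟨s, hs, h⟩)
    · exact ⟨t, by omega, h⟩
    · exact ⟨s, by omega, h⟩

theorem mem_st {v : V} {x : ℕ → V} {t : ℕ} (h : Valid v x t) (a : V) (d : Fin 3) :
    edge (rel v.1 a) d ∈ (st v x t).A ↔ Visited x t s(a, move a d) := by
  induction t with
  | zero =>
    simp only [st, Finset.notMem_empty, false_iff]
    rintro ⟨s, hs, _⟩
    omega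
  | succ t ih =>
    obtain ⟨e, he⟩ := (adj_iff _ _).1 (h.2 t (by omega))
    simp only [st, upd]
    rw [Finset.mem_insert, ih (valid_succ h), visited_succ, st_x (valid_succ h), he, dirTo_move,
      edge_eq_iff, eq_comm]

theorem good_st {v : V} {x : ℕ → V} {t : ℕ} (h : Valid v x t) : Good (st v x t) := by
  induction t with
  | zero =>
    have h0 := h.1
    refine ⟨⟨?_, ?_, ?_⟩, ⟨?_, ?_, ?_⟩⟩
    · simp [st, rel, h0]
    · simp [st]
    · simp [st]
    · simp [st, rel, h0, refV]
    · simp [st, refA]
    · simp [st, refA]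
  | succ t ih => exact good_upd (ih (valid_succ h)) _

/-! ### The step probabilities -/

theorem ok_iff {v : V} {x : ℕ → V} {t : ℕ} (h : Valid v x t) (d : Fin 3) :
    ok (st v x t).A (st v x t).x d = true ↔ move (x t) d ∈ options ladder x t := by
  have hm : ∀ e, edge (rel v.1 (x t)) e ∈ (st v x t).A ↔ Visited x t s(x t, move (x t) e) :=
    fun e => mem_st h (x t) e
  rw [st_x h]
  unfold ok options
  simp only [Bool.or_eq_true, Bool.not_eq_true', decide_eq_false_iff_not, Bool.and_eq_true,
    decide_eq_true_eq, hm, Set.mem_ofPred_eq]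
  constructor
  · rintro (h1 | ⟨⟨h0, h1⟩, h2⟩)
    · exact ⟨(adj_iff _ _).2 ⟨d, rfl⟩, Or.inl h1⟩
    · refine ⟨(adj_iff _ _).2 ⟨d, rfl⟩, Or.inr ?_⟩
      intro z hz
      obtain ⟨e, rfl⟩ := (adj_iff _ _).1 hz
      rcases key3 e with rfl | rfl | rfl
      · exact h0
      · exact h1
      · exact h2
  · rintro ⟨_, h1 | h1⟩
    · exact Or.inl h1
    · exact Or.inr ⟨⟨h1 _ ((adj_iff _ _).2 ⟨0, rfl⟩), h1 _ ((adj_iff _ _).2 ⟨1, rfl⟩)⟩,
        h1 _ ((adj_iff _ _).2 ⟨2, rfl⟩)⟩

theorem options_eq {v : V} {x : ℕ → V} {t : ℕ} (h : Valid v x t) :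
    options ladder x t = ((Finset.univ.filter
      (fun d : Fin 3 => ok (st v x t).A (st v x t).x d = true)).image (move (x t)) : Set V) := by
  ext y
  simp only [Finset.coe_image, Finset.coe_filter, Finset.mem_univ, true_and, Set.mem_image,
    Set.mem_ofPred_eq]
  constructor
  · intro hy
    obtain ⟨d, rfl⟩ := (adj_iff _ _).1 hy.1
    exact ⟨d, (ok_iff h d).2 hy, rfl⟩
  · rintro ⟨d, hd, rfl⟩
    exact (ok_iff h d).1 hd

theorem ncard_options {v : V} {x : ℕ → V} {t : ℕ} (h : Valid v x t) :
    ((options ladder x t).ncard : ℝ) = AV (st v x t).A (st v x t).x (fun _ => 1) := by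
  rw [options_eq h, Set.ncard_coe_finset, Finset.card_image_of_injective _
    (fun d e => move_inj (x t))]
  unfold AV
  rw [Finset.card_filter]
  push_cast
  rfl

theorem stepProb_move {v : V} {x : ℕ → V} {t : ℕ} (h : Valid v x t) (d : Fin 3) :
    stepProb ladder x t (move (x t) d) = if ok (st v x t).A (st v x t).x d = true then
      ENNReal.ofReal (1 / AV (st v x t).A (st v x t).x (fun _ => 1)) else 0 := by
  unfold stepProb
  by_cases h1 : move (x t) d ∈ options ladder x t
  · rw [if_pos h1, if_pos ((ok_iff h d).2 h1), ← ncard_options h, one_div,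
      ENNReal.ofReal_inv_of_pos]
    · simp
    · rw [ncard_options h]; exact AV_one_pos _ _
  · rw [if_neg h1, if_neg (fun h2 => h1 ((ok_iff h d).1 h2))]

/-! ### Survival -/

section Process

variable {Ω : Type*} {mΩ : MeasurableSpace Ω} {P : Measure Ω} {X : ℕ → Ω → V} {v : V}

theorem path_null_of_not_valid (hX : IsGRW ladder v P X) (x : ℕ → V) (t : ℕ)
    (h : ¬ Valid v x t) : P {ω | ∀ i ≤ t, X i ω = x i} = 0 := by
  haveI := hX.prob
  by_cases h0 : x 0 = v
  · have : ∃ s < t, ¬ ladder.Adj (x s) (x (s + 1)) := by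
      by_contra hcon
      push Not at hcon
      exact h ⟨h0, hcon⟩
    obtain ⟨s, hs, hadj⟩ := this
    refine measure_mono_null (t := {ω | (∀ i ≤ s, X i ω = x i) ∧ X (s + 1) ω = x (s + 1)}) ?_ ?_
    · intro ω hω
      exact ⟨fun i hi => hω i (by omega), hω (s + 1) (by omega)⟩
    · rw [hX.step]
      have : stepProb ladder x s (x (s + 1)) = 0 := by
        unfold stepProb
        rw [if_neg]
        intro hmem
        exact hadj hmem.1
      rw [this, mul_zero]
  · have h1 : P {ω | X 0 ω = v}ᶜ = 0 := by
      rw [prob_compl_eq_zero_iff (hX.meas 0 v)]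
      exact hX.start
    refine measure_mono_null ?_ h1
    intro ω hω h2
    exact h0 ((hω 0 (by omega)).symm.trans h2)

theorem surv (hX : IsGRW ladder v P X) (n : ℕ) : ∀ (t : ℕ) (x : ℕ → V), Valid v x t →
    P {ω | (∀ i ≤ t, X i ω = x i) ∧ ∀ k, 1 ≤ k → k ≤ n → X (t + k) ω ≠ v} ≤
      P {ω | ∀ i ≤ t, X i ω = x i} * ENNReal.ofReal (u v.2 n (st v x t)) := by
  haveI := hX.prob
  induction n with
  | zero =>
    intro t x _
    simp only [u, ENNReal.ofReal_one, mul_one]
    exact measure_mono fun ω hω => hω.1
  | succ n ih =>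
    intro t x hv
    set s := st v x t with hs
    have hp := AV_one_pos s.A s.x
    -- the steps
    let E : Fin 3 → Set Ω := fun d => {ω | ((∀ i ≤ t, X i ω = x i) ∧ X (t + 1) ω = move (x t) d) ∧
      ∀ k, 1 ≤ k → k ≤ n + 1 → X (t + k) ω ≠ v}
    let N : Set Ω := ⋃ y : {y : V // ¬ ladder.Adj (x t) y},
      {ω | (∀ i ≤ t, X i ω = x i) ∧ X (t + 1) ω = y.1}
    have hN : P N = 0 := by
      refine measure_iUnion_null fun y => ?_
      rw [hX.step]
      have : stepProb ladder x t y.1 = 0 := by
        unfold stepProb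
        rw [if_neg]
        intro hmem
        exact y.2 hmem.1
      rw [this, mul_zero]
    have hcover : {ω | (∀ i ≤ t, X i ω = x i) ∧ ∀ k, 1 ≤ k → k ≤ n + 1 → X (t + k) ω ≠ v} ⊆
        (⋃ d ∈ (Finset.univ : Finset (Fin 3)), E d) ∪ N := by
      intro ω hω
      by_cases hadj : ladder.Adj (x t) (X (t + 1) ω)
      · obtain ⟨d, hd⟩ := (adj_iff _ _).1 hadj
        left
        simp only [Set.mem_iUnion]
        exact ⟨d, Finset.mem_univ d, ⟨hω.1, hd⟩, hω.2⟩
      · right
        simp only [N, Set.mem_iUnion]
        exact ⟨⟨_, hadj⟩, hω.1, rfl⟩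
    have hE : ∀ d, P (E d) ≤ P {ω | ∀ i ≤ t, X i ω = x i} *
        ENNReal.ofReal ((if ok s.A s.x d then KF v.2 (u v.2 n) s d else 0) /
          AV s.A s.x (fun _ => 1)) := by
      intro d
      by_cases hmv : move (x t) d = v
      · have : E d = ∅ := by
          ext ω
          simp only [E, Set.mem_ofPred_eq, Set.mem_empty_iff_false, iff_false]
          rintro ⟨⟨_, h2⟩, h3⟩
          exact h3 1 le_rfl (by omega) (h2.trans hmv)
        rw [this, measure_empty]
        exact zero_le
      · -- the new path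
        set x' : ℕ → V := fun i => if i ≤ t then x i else move (x t) d with hx'
        have hx'le : ∀ i ≤ t, x' i = x i := fun i hi => by simp only [hx', if_pos hi]
        have hx't : x' (t + 1) = move (x t) d := by
          simp only [hx']; rw [if_neg (by omega)]
        have hset : {ω | (∀ i ≤ t, X i ω = x i) ∧ X (t + 1) ω = move (x t) d} =
            {ω | ∀ i ≤ t + 1, X i ω = x' i} := by
          ext ω
          simp only [Set.mem_ofPred_eq]
          constructor
          · rintro ⟨h1, h2⟩ i hi
            rcases Nat.lt_or_ge i (t + 1) with h3 | h3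
            · rw [h1 i (by omega), hx'le i (by omega)]
            · have : i = t + 1 := by omega
              subst this
              rw [h2, hx't]
          · intro h1
            refine ⟨fun i hi => ?_, ?_⟩
            · rw [h1 i (by omega), hx'le i hi]
            · rw [h1 (t + 1) le_rfl, hx't]
        have hv' : Valid v x' (t + 1) := by
          refine ⟨by rw [hx'le 0 (by omega)]; exact hv.1, ?_⟩
          intro k hk
          rcases Nat.lt_or_ge k t with h3 | h3
          · rw [hx'le k (by omega), hx'le (k + 1) (by omega)]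
            exact hv.2 k h3
          · have : k = t := by omega
            subst this
            rw [hx'le k le_rfl, hx't]
            exact (adj_iff _ _).2 ⟨d, rfl⟩
        have hst : st v x' (t + 1) = upd s d := by
          simp only [st]
          rw [st_congr v x' x t hx'le, hx't, hx'le t le_rfl, dirTo_move]
        have hsub : E d ⊆ {ω | (∀ i ≤ t + 1, X i ω = x' i) ∧
            ∀ k, 1 ≤ k → k ≤ n → X (t + 1 + k) ω ≠ v} := by
          intro ω hω
          refine ⟨?_, fun k hk1 hk2 => ?_⟩
          · have : ω ∈ {ω | (∀ i ≤ t, X i ω = x i) ∧ X (t + 1) ω = move (x t) d} := hω.1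
            rw [hset] at this
            exact this
          · have := hω.2 (k + 1) (by omega) (by omega)
            rw [show t + 1 + k = t + (k + 1) by ring]
            exact this
        refine (measure_mono hsub).trans ((ih (t + 1) x' hv').trans ?_)
        rw [← hset, hX.step, stepProb_move hv, ← hs, hst]
        by_cases hokd : ok s.A s.x d = true
        · rw [if_pos hokd, if_pos hokd, mul_assoc, ← ENNReal.ofReal_mul (by positivity)]
          refine mul_le_mul_right (ENNReal.ofReal_le_ofReal (le_of_eq ?_)) _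
          have hne : ¬ (upd s d).x = (0, v.2) := by
            intro h1
            apply hmv
            have h2 : (upd s d).x = rel v.1 (move (x t) d) := by
              show move s.x d = _
              rw [hs, st_x hv, move_rel]
            rw [h2] at h1
            unfold rel at h1
            simp only [Prod.mk.injEq] at h1
            exact Prod.ext (by omega) h1.2
          unfold KF
          rw [if_neg hne]
          ring
        · rw [if_neg hokd]
          simp
    calc P {ω | (∀ i ≤ t, X i ω = x i) ∧ ∀ k, 1 ≤ k → k ≤ n + 1 → X (t + k) ω ≠ v}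
        ≤ P ((⋃ d ∈ (Finset.univ : Finset (Fin 3)), E d) ∪ N) := measure_mono hcover
      _ ≤ P (⋃ d ∈ (Finset.univ : Finset (Fin 3)), E d) + P N := measure_union_le _ _
      _ ≤ ∑ d : Fin 3, P (E d) := by
          rw [hN, add_zero]
          exact measure_biUnion_finset_le _ _
      _ ≤ ∑ d : Fin 3, P {ω | ∀ i ≤ t, X i ω = x i} *
          ENNReal.ofReal ((if ok s.A s.x d then KF v.2 (u v.2 n) s d else 0) /
          AV s.A s.x (fun _ => 1)) := Finset.sum_le_sum fun d _ => hE d
      _ = P {ω | ∀ i ≤ t, X i ω = x i} * ENNReal.ofReal (u v.2 (n + 1) s) := by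
          rw [← Finset.mul_sum, ← ENNReal.ofReal_sum_of_nonneg]
          · congr 2
            rw [← Finset.sum_div]
            rfl
          · intro d _
            refine div_nonneg ?_ hp.le
            unfold KF
            split_ifs
            · exact le_rfl
            · exact u_nonneg _ _ _
            · exact le_rfl

theorem no_return_null (hX : IsGRW ladder v P X) (t : ℕ) (x : ℕ → V) (hxt : x t ≠ v) :
    P {ω | (∀ i ≤ t, X i ω = x i) ∧ ∀ k, 1 ≤ k → X (t + k) ω ≠ v} = 0 := by
  haveI := hX.prob
  by_cases hv : Valid v x t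
  · have hne : (st v x t).x ≠ (0, v.2) := by
      rw [st_x hv]
      intro h1
      apply hxt
      unfold rel at h1
      simp only [Prod.mk.injEq] at h1
      exact Prod.ext (by omega) h1.2
    have h1 := u_tendsto v.2 (good_st hv) hne
    have h2 : Tendsto (fun n => P {ω | ∀ i ≤ t, X i ω = x i} *
        ENNReal.ofReal (u v.2 n (st v x t))) atTop (𝓝 0) := by
      have h3 : Tendsto (fun n => ENNReal.ofReal (u v.2 n (st v x t))) atTop (𝓝 0) := by
        have := ENNReal.tendsto_ofReal h1
        simpa using this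
      have h4 := ENNReal.Tendsto.const_mul h3 (a := P {ω | ∀ i ≤ t, X i ω = x i})
        (Or.inr (measure_ne_top _ _))
      simpa using h4
    refine le_antisymm (ge_of_tendsto' h2 fun n => ?_) zero_le
    refine le_trans (measure_mono ?_) (surv hX n t x hv)
    intro ω hω
    exact ⟨hω.1, fun k hk _ => hω.2 k hk⟩
  · refine measure_mono_null (fun ω hω => hω.1) (path_null_of_not_valid hX x t hv)

theorem recurrent (hX : IsGRW ladder v P X) : ∀ᵐ ω ∂P, {n | X n ω = v}.Infinite := by
  haveI := hX.prob
  have h1 : P (⋃ (t : ℕ) (z : {z : Fin (t + 1) → V // z ⟨t, by omega⟩ ≠ v}),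
      {ω | (∀ i ≤ t, X i ω = (fun j : ℕ => if h : j < t + 1 then z.1 ⟨j, h⟩ else v) i) ∧
        ∀ k, 1 ≤ k → X (t + k) ω ≠ v}) = 0 := by
    refine measure_iUnion_null fun t => measure_iUnion_null fun z => ?_
    refine no_return_null hX t _ ?_
    rw [dif_pos (by omega)]
    exact z.2
  rw [ae_iff]
  refine measure_mono_null ?_ h1
  intro ω hω
  have hfin : {n | X n ω = v}.Finite := Set.not_infinite.1 hω
  obtain ⟨N, hN⟩ := hfin.bddAbove
  have hN' : ∀ n, N < n → X n ω ≠ v := by
    intro n hn h2
    have := hN h2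
    omega
  simp only [Set.mem_iUnion]
  refine ⟨N + 1, ⟨fun j => X j ω, hN' (N + 1) (by omega)⟩, ?_, fun k _ => hN' _ (by omega)⟩
  intro i hi
  simp only
  rw [dif_pos (by omega)]

end Process

/-! ### Existence -/

theorem options_finite (x : ℕ → V) (t : ℕ) : (options ladder x t).Finite := by
  refine Set.Finite.subset (Set.finite_range (move (x t))) ?_
  intro y hy
  obtain ⟨d, rfl⟩ := (adj_iff _ _).1 hy.1
  exact ⟨d, rfl⟩

theorem options_nonempty (x : ℕ → V) (t : ℕ) : (options ladder x t).Nonempty := by
  by_cases h : ∀ z, ladder.Adj (x t) z → Visited x t s(x t, z)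
  · exact ⟨move (x t) 0, (adj_iff _ _).2 ⟨0, rfl⟩, Or.inr h⟩
  · push Not at h
    obtain ⟨z, hz1, hz2⟩ := h
    exact ⟨z, hz1, Or.inl hz2⟩

theorem tsum_stepProb (t : ℕ) (x : ℕ → V) : ∑' y, stepProb ladder x t y = 1 := by
  have hfin := options_finite x t
  rw [tsum_eq_sum (s := hfin.toFinset)]
  · have h1 : ∀ y ∈ hfin.toFinset, stepProb ladder x t y =
        ((options ladder x t).ncard : ℝ≥0∞)⁻¹ := by
      intro y hy
      unfold stepProb
      rw [if_pos (hfin.mem_toFinset.1 hy)]
    rw [Finset.sum_congr rfl h1, Finset.sum_const, nsmul_eq_mul,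
      Set.ncard_eq_toFinset_card _ hfin]
    refine ENNReal.mul_inv_cancel ?_ (ENNReal.natCast_ne_top _)
    rw [Nat.cast_ne_zero, Finset.card_ne_zero]
    obtain ⟨y, hy⟩ := options_nonempty x t
    exact ⟨y, hfin.mem_toFinset.2 hy⟩
  · intro y hy
    unfold stepProb
    rw [if_neg fun h => hy (hfin.mem_toFinset.2 h)]

theorem stepProb_congr (t : ℕ) (x x' : ℕ → V) (h : ∀ i ≤ t, x i = x' i) :
    stepProb ladder x t = stepProb ladder x' t := by
  have hvis : ∀ e, Visited x t e ↔ Visited x' t e := by
    intro e
    unfold Visited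
    constructor
    · rintro ⟨s, hs, h1⟩
      exact ⟨s, hs, by rw [← h s (by omega), ← h (s + 1) (by omega)]; exact h1⟩
    · rintro ⟨s, hs, h1⟩
      exact ⟨s, hs, by rw [h s (by omega), h (s + 1) (by omega)]; exact h1⟩
  have hopt : options ladder x t = options ladder x' t := by
    unfold options
    rw [h t le_rfl]
    simp only [hvis]
  funext y
  unfold stepProb
  rw [hopt]

theorem exists_grw (v : V) : ∃ (m : MeasurableSpace (ℕ → V)) (P : @Measure (ℕ → V) m),
    @IsGRW V ladder v (ℕ → V) m P (fun n ω => ω n) := by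
  obtain ⟨m, P, h1, h2, h3, h4⟩ := Pool.Agent.R766.Proc.exists_process
    (fun t x y => stepProb ladder x t y) tsum_stepProb
    (fun t x x' h => stepProb_congr t x x' h) v
  exact ⟨m, P, h1, h2, h3, h4⟩

/-- **The greedy random walk on the ladder is recurrent.** For every vertex `v` of the ladder
`ℤ × ℤ₂` the greedy random walk started at `v` exists, and every such walk returns to `v`
infinitely often almost surely. -/
theorem result.{w} (v : ℤ × ZMod 2) :
    (∃ (m : MeasurableSpace (ℕ → ℤ × ZMod 2)) (P : @Measure (ℕ → ℤ × ZMod 2) m),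
      @IsGRW (ℤ × ZMod 2) ladder v (ℕ → ℤ × ZMod 2) m P (fun n ω => ω n)) ∧
    ∀ (Ω : Type w) (m : MeasurableSpace Ω) (P : @Measure Ω m) (X : ℕ → Ω → ℤ × ZMod 2),
      @IsGRW (ℤ × ZMod 2) ladder v Ω m P X →
        ∀ᵐ ω ∂P, {n | X n ω = v}.Infinite :=
  ⟨exists_grw v, fun _ _ _ _ hX => recurrent hX⟩

end Pool.Agent.Results.MP_1d885b_pr.LadderRecurrent
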